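import Pool.Agent.Lib.MP_40f35d_gt.Plane
import Pool.Agent.Lib.MP_40f35d_gt.Chain

/-!
# Indecomposable subcontinua of planar tree-like continua

Every Hausdorff limit of indecomposable subcontinua of a tree-like plane continuum is the image
of a subcontinuum under every map of a continuum onto the large one. So it is weakly chainable
whenever the large continuum is.
-/

set_option autoImplicit false

open Set Topology

namespace Pool.Agent.Results.MP_40f35d_gt.IndecomposableCovered

open Pool.Agent.Lib.MP_40f35d_gt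

theorem result (X : Set (EuclideanSpace ℝ (Fin 2))) (hXc : IsCompact X)
    (hXt : TreeLike X)
    (K : Set (EuclideanSpace ℝ (Fin 2))) (hKc : IsCompact K) (hKn : IsConnected K)
    (hK : ∀ ε : ℝ, 0 < ε → ∃ L ⊆ X, IsCompact L ∧ IsConnected L ∧ Indec L ∧
      Metric.hausdorffDist L K < ε) :
    (∀ (Y : Type) (_ : MetricSpace Y) (_ : CompactSpace Y) (_ : ConnectedSpace Y)
      (f : Y → EuclideanSpace ℝ (Fin 2)), Continuous f → range f = X →
        ∃ C : Set Y, IsCompact C ∧ IsConnected C ∧ f '' C = K) ∧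
    ((∃ (Y : Type) (_ : MetricSpace Y), CompactSpace Y ∧ ConnectedSpace Y ∧ Chainable Y ∧
        ∃ f : Y → EuclideanSpace ℝ (Fin 2), Continuous f ∧ range f = X) →
      ∃ (Y : Type) (_ : MetricSpace Y), CompactSpace Y ∧ ConnectedSpace Y ∧ Chainable Y ∧
        ∃ f : Y → EuclideanSpace ℝ (Fin 2), Continuous f ∧ range f = K) := by
  have h1 : ∀ (Y : Type) (_ : MetricSpace Y) (_ : CompactSpace Y) (_ : ConnectedSpace Y)
      (f : Y → EuclideanSpace ℝ (Fin 2)), Continuous f → range f = X →
        ∃ C : Set Y, IsCompact C ∧ IsConnected C ∧ f '' C = K := by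
    intro Y _ _ _ f hf hr
    refine core_limit f hf ?_ K hKc hKn ?_
    · rw [hr]
      exact hu_of_treeLike X hXc hXt
    · rw [hr]
      exact hK
  refine ⟨h1, ?_⟩
  rintro ⟨Y, i1, i2, i3, hY, f, hf, hr⟩
  obtain ⟨C, hCc, hCn, hCK⟩ := h1 Y i1 i2 i3 f hf hr
  refine ⟨C, inferInstance, isCompact_iff_compactSpace.1 hCc,
    isConnected_iff_connectedSpace.1 hCn, chainable_sub hY C hCn, fun y => f y,
    hf.comp continuous_subtype_val, ?_⟩
  rw [← hCK]
  ext z
  constructor
  · rintro ⟨y, rfl⟩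
    exact ⟨y, y.2, rfl⟩
  · rintro ⟨y, hy, rfl⟩
    exact ⟨⟨y, hy⟩, rfl⟩

end Pool.Agent.Results.MP_40f35d_gt.IndecomposableCovered
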