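import Pool.Agent.Lib.MP_40f35d_gt.H.Main

/-!
# Exits of subcontinua which are not weakly chainable
-/

set_option autoImplicit false

open Set Topology

namespace Pool.Agent.Results.MP_40f35d_gt.ManyExits

open Pool.Agent.Lib.MP_40f35d_gt

/-- The set `K` is a continuous image of a chainable continuum. -/
def WChain {E : Type} [MetricSpace E] (K : Set E) : Prop :=
  ∃ (Y : Type) (_ : MetricSpace Y), CompactSpace Y ∧ ConnectedSpace Y ∧ Chainable Y ∧
    ∃ f : Y → E, Continuous f ∧ range f = K

/-- For every continuous map `f` of a chainable continuum onto `X` there is a connected set `C`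
with `S ⊆ f(C) ⊆ K`. -/
def Caught {E : Type} [MetricSpace E] (X K S : Set E) : Prop :=
  ∀ (Y : Type) (_ : MetricSpace Y), CompactSpace Y → ConnectedSpace Y → Chainable Y →
    ∀ f : Y → E, Continuous f → range f = X → ∃ C : Set Y, IsConnected C ∧ S ⊆ f '' C ∧ f '' C ⊆ K

/-- Let `K` be a compact connected subset of a weakly chainable set `X` of a metric space, not weakly
chainable itself. Let `V` be closed, all its points joined to points of a finite set `F` by chains of
`M` caught sets (for instance `V` finite, `F = V`, `M = 0`). For every open `G` around `K` and every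
`l` there is a compact connected `B ⊆ K` missing `V` which meets `l` pairwise disjoint compact
connected subsets of `X ∩ G` missing `V`, none of them contained in `K`. -/
theorem result {E : Type} [MetricSpace E] (X K : Set E) (hX : WChain X) (hKX : K ⊆ X)
    (hK : IsCompact K) (hKc : IsConnected K) (hKw : ¬ WChain K)
    (V F : Set E) (M : ℕ) (hV : IsClosed V) (hF : F.Finite)
    (hVF : ∀ v ∈ V, ∃ u ∈ F, ∃ a : ℕ → E, a 0 = u ∧ a M = v ∧
      ∀ k < M, ∃ S, Caught X K S ∧ a k ∈ S ∧ a (k + 1) ∈ S)
    (G : Set E) (hG : IsOpen G) (hKG : K ⊆ G) (l : ℕ) :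
    ∃ (B : Set E) (Q : Fin l → Set E), IsCompact B ∧ IsConnected B ∧ B ⊆ K \ V ∧
      (∀ i, IsCompact (Q i) ∧ IsConnected (Q i) ∧ Q i ⊆ (X ∩ G) \ V ∧ (Q i ∩ B).Nonempty ∧
        ¬ Q i ⊆ K) ∧ ∀ i j, i ≠ j → Disjoint (Q i) (Q j) := by
  by_contra hno
  exact hKw (H.main X K V hX hKX hK hKc hV F hF M hVF G hG hKG l hno)

end Pool.Agent.Results.MP_40f35d_gt.ManyExits
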